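import Mathlib
import Pool.Agent.H993.TR.ProjFB

/-!
# The cross inequality for traces
-/

namespace Pool.Agent.H297.HF

open Filter Topology NormedSpace Matrix MeasureTheory
open Pool.Agent.H993.TR

variable {n : Type} [Fintype n] [DecidableEq n]

/-- the expansions in an eigenbasis of `G` -/
theorem sp2 (I G : Matrix n n ℝ) (hG : Gᵀ = G) (hI : Iᵀ = I)
    (hII : I * I = I) (hIG : I * G = G * I) :
    ∃ (g : n → ℝ) (X : Matrix n n ℝ → Matrix n n ℝ), ∀ C B : Matrix n n ℝ, Cᵀ = C → Bᵀ = B →
      (∀ v, FF I G C v = ∑ i, ∑ j, X C j i ^ 2 * Real.exp (v * g j + (1 - v) * g i)) ∧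
      (I * (C * B) * exp G).trace = ∑ i, ∑ j, X C j i * X B j i * Real.exp (g i) ∧
      (I * (B * (B * G - G * B)) * exp G).trace =
        ∑ i, ∑ j, X B j i ^ 2 * ((g i - g j) * Real.exp (g i)) ∧
      (I * (B * exp G * B)).trace = ∑ i, ∑ j, X B j i ^ 2 * Real.exp (g j) := by
  obtain ⟨U, g, h1, h2, h3⟩ := spectral G hG
  set X : Matrix n n ℝ → Matrix n n ℝ := fun A => Uᵀ * (A * I) * U with hX
  refine ⟨g, X, ?_⟩
  intro C B hC hB
  set D : (n → ℝ) → Matrix n n ℝ := fun x => U * diagonal x * Uᵀ with hD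
  have hDexp : ∀ s : ℝ, exp (s • G) = D (fun i => Real.exp (s * g i)) := by
    intro s
    have : s • G = U * diagonal (fun i => s * g i) * Uᵀ := by
      rw [h3]
      have : diagonal (fun i => s * g i) = s • diagonal g := by
        rw [← Matrix.diagonal_smul]; rfl
      rw [this, Matrix.mul_smul, Matrix.smul_mul]
    rw [this, exp_conj_orth U h1 h2, exp_diag_real]
  have hDexp1 : exp G = D (fun i => Real.exp (g i)) := by
    have := hDexp 1
    rw [one_smul] at this
    simpa using this
  have hDmul : ∀ x y, D x * D y = D (fun i => x i * y i) := by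
    intro x y
    rw [hD]
    simp only
    calc U * diagonal x * Uᵀ * (U * diagonal y * Uᵀ)
        = U * diagonal x * (Uᵀ * U) * diagonal y * Uᵀ := by simp only [Matrix.mul_assoc]
      _ = U * (diagonal x * diagonal y) * Uᵀ := by
          rw [h1]; simp only [Matrix.mul_assoc, Matrix.one_mul]
      _ = _ := by rw [Matrix.diagonal_mul_diagonal]
  have hD1 : D (fun _ => 1) = 1 := by
    rw [hD]
    simp only
    rw [Matrix.diagonal_one, Matrix.mul_one, h2]
  -- the basic trace
  have htr : ∀ (C B : Matrix n n ℝ) (_ : Cᵀ = C) (x y : n → ℝ),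
      ((I * C) * D x * (B * I) * D y).trace =
      ∑ i, ∑ j, X C j i * X B j i * (x j * y i) := by
    intro C B hC x y
    have hXt : Uᵀ * (I * C) * U = (X C)ᵀ := by
      rw [hX]
      simp only
      rw [Matrix.transpose_mul, Matrix.transpose_mul, Matrix.transpose_mul,
        Matrix.transpose_transpose, hC, hI, Matrix.mul_assoc]
    have e1 : (I * C) * D x * (B * I) * D y =
        U * ((X C)ᵀ * diagonal x * X B * diagonal y) * Uᵀ := by
      rw [← hXt, hX, hD]
      simp only
      calc (I * C) * (U * diagonal x * Uᵀ) * (B * I) * (U * diagonal y * Uᵀ)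
          = (U * Uᵀ) * (I * C) * (U * diagonal x * Uᵀ) * (B * I) * (U * diagonal y * Uᵀ) := by
            rw [h2, Matrix.one_mul]
        _ = _ := by simp only [Matrix.mul_assoc]
    rw [e1, trace_conj_orth U h1, Matrix.trace]
    refine Finset.sum_congr rfl fun i _ => ?_
    rw [Matrix.diag_apply, Matrix.mul_diagonal, Matrix.mul_apply, Finset.sum_mul]
    refine Finset.sum_congr rfl fun j _ => ?_
    rw [Matrix.mul_diagonal, Matrix.transpose_apply]
    ring
  -- moving the projection
  have hmove : ∀ (C B Y : Matrix n n ℝ) (y : n → ℝ), I * D y = D y * I →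
      (I * C * Y * B * D y).trace = ((I * C) * Y * (B * I) * D y).trace := by
    intro C B Y y hy
    have e1 : (I * C * Y * B * D y).trace = (I * (I * C * Y * B * D y)).trace := by
      have : I * (I * C * Y * B * D y) = (I * I) * C * Y * B * D y := by
        simp only [Matrix.mul_assoc]
      rw [this, hII]
    rw [e1, Matrix.trace_mul_comm]
    congr 1
    calc I * C * Y * B * D y * I = I * C * Y * B * (D y * I) := by simp only [Matrix.mul_assoc]
      _ = I * C * Y * B * (I * D y) := by rw [hy]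
      _ = _ := by simp only [Matrix.mul_assoc]
  have hcommE : ∀ s : ℝ, I * D (fun i => Real.exp (s * g i)) =
      D (fun i => Real.exp (s * g i)) * I := by
    intro s
    rw [← hDexp]
    exact comm_exp_smul I G hIG s
  have hc : I * D (fun i => Real.exp (g i)) = D (fun i => Real.exp (g i)) * I := by
    simpa using hcommE 1
  have hDG : G = D g := h3
  have hIG' : I * D g = D g * I := by rw [← hDG]; exact hIG
  have hc2 : I * D (fun i => g i * Real.exp (g i)) = D (fun i => g i * Real.exp (g i)) * I := by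
    have : D (fun i => g i * Real.exp (g i)) = D g * D (fun i => Real.exp (g i)) :=
      (hDmul _ _).symm
    rw [this]
    calc I * (D g * D (fun i => Real.exp (g i))) = (I * D g) * D (fun i => Real.exp (g i)) :=
          (Matrix.mul_assoc _ _ _).symm
      _ = D g * (I * D (fun i => Real.exp (g i))) := by rw [hIG']; exact Matrix.mul_assoc _ _ _
      _ = (D g * D (fun i => Real.exp (g i))) * I := by
          rw [hc]; exact (Matrix.mul_assoc _ _ _).symm
  refine ⟨?_, ?_, ?_, ?_⟩
  · intro v
    unfold FF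
    have e1 : I * exp ((1 - v) • G) * C * exp (v • G) * C =
        exp ((1 - v) • G) * (I * C * exp (v • G) * C) := by
      rw [comm_exp_smul I G hIG]
      simp only [Matrix.mul_assoc]
    rw [e1, Matrix.trace_mul_comm, hDexp, hDexp, hmove _ _ _ _ (hcommE _), htr _ _ hC]
    refine Finset.sum_congr rfl fun i _ => Finset.sum_congr rfl fun j _ => ?_
    rw [Real.exp_add]
    ring
  · have e1 : I * (C * B) * exp G = I * C * D (fun _ => 1) * B * D (fun i => Real.exp (g i)) := by
      rw [hD1, Matrix.mul_one, hDexp1]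
      simp only [Matrix.mul_assoc]
    rw [e1, hmove _ _ _ _ hc, htr _ _ hC]
    refine Finset.sum_congr rfl fun i _ => Finset.sum_congr rfl fun j _ => ?_
    rw [one_mul]
  · have e1 : I * (B * (B * G - G * B)) * exp G =
        I * B * D (fun _ => 1) * B * D (fun i => g i * Real.exp (g i)) -
        I * B * D g * B * D (fun i => Real.exp (g i)) := by
      rw [hD1, Matrix.mul_one, hDexp1]
      have : D (fun i => g i * Real.exp (g i)) = G * D (fun i => Real.exp (g i)) := by
        conv_rhs => rw [hDG]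
        exact (hDmul _ _).symm
      rw [this, ← hDG]
      simp only [Matrix.mul_sub, Matrix.sub_mul, Matrix.mul_assoc]
    rw [e1, Matrix.trace_sub, hmove _ _ _ _ hc, hmove _ _ _ _ hc2, htr _ _ hB, htr _ _ hB,
      ← Finset.sum_sub_distrib]
    refine Finset.sum_congr rfl fun i _ => ?_
    rw [← Finset.sum_sub_distrib]
    exact Finset.sum_congr rfl fun j _ => by ring
  · have hcI : I * D (fun _ => 1) = D (fun _ => 1) * I := by
      rw [hD1, Matrix.mul_one, Matrix.one_mul]
    have e1 : I * (B * exp G * B) =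
        I * B * D (fun i => Real.exp (g i)) * B * D (fun _ => 1) := by
      rw [hD1, Matrix.mul_one, hDexp1]
      simp only [Matrix.mul_assoc]
    rw [e1, hmove _ _ _ _ hcI, htr _ _ hB]
    refine Finset.sum_congr rfl fun i _ => Finset.sum_congr rfl fun j _ => ?_
    ring

/-- the double integral of the imaginary time function -/
theorem dbl_le (I G C : Matrix n n ℝ)
    (hIG : I * G = G * I) (hodd : (I * exp G * C).trace = 0)
    (hZ : 0 ≤ (I * exp G).trace) (q : ℝ)
    (h : ∀ s : ℝ, (I * exp (G + s • C)).trace ≤ Real.exp (s ^ 2 * q) * (I * exp G).trace) :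
    ∫ u in (0:ℝ)..1, ∫ v in (0:ℝ)..u, FF I G C v ≤ q * (I * exp G).trace := by
  set Z := (I * exp G).trace with hZd
  set Φ : ℝ → ℝ := fun t => ∫ u in (0:ℝ)..1, PsiI I G C t u with hΦ
  have hΦc : Continuous Φ := by
    rw [hΦ]
    exact intervalIntegral.continuous_parametric_intervalIntegral_of_continuous'
      (f := fun t u => PsiI I G C t u) (PsiI_cont I G C) 0 1
  -- the expansion
  have hexp : ∀ t : ℝ, (I * exp (G + t • C)).trace - Z = t ^ 2 * Φ t := by
    intro t
    have h1 := duhamel_tr I G C t 1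
    rw [one_smul, one_smul] at h1
    rw [h1]
    have h2 : ∀ u : ℝ, (I * (exp ((1 - u) • G) * C * exp (u • (G + t • C)))).trace =
        t * PsiI I G C t u := by
      intro u
      have h3 := duhamel_tr (I * exp ((1 - u) • G) * C) G C t u
      have h4 : (I * exp ((1 - u) • G) * C * exp (u • G)).trace = 0 := by
        rw [Matrix.trace_mul_comm]
        have e1 : exp (u • G) * (I * exp ((1 - u) • G) * C) =
            (exp (u • G) * I) * exp ((1 - u) • G) * C := by simp only [Matrix.mul_assoc]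
        rw [e1, ← comm_exp_smul I G hIG, Matrix.mul_assoc I, exp_smul_mul]
        have e2 : u + (1 - u) = 1 := by ring
        rw [e2, one_smul]
        exact hodd
      rw [h4, sub_zero] at h3
      have e3 : I * (exp ((1 - u) • G) * C * exp (u • (G + t • C))) =
          I * exp ((1 - u) • G) * C * exp (u • (G + t • C)) := by simp only [Matrix.mul_assoc]
      rw [e3, h3]
      rfl
    simp only [h2]
    rw [intervalIntegral.integral_const_mul, hΦ]
    ring
  have hup : Φ 0 ≤ q * Z := by
    have h1 : ∀ t : ℝ, t ≠ 0 → Φ t ≤ q * Real.exp (t ^ 2 * q) * Z := by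
      intro t ht
      have h2 := h t
      have h3 := hexp t
      have h4 : Real.exp (t ^ 2 * q) - 1 ≤ t ^ 2 * q * Real.exp (t ^ 2 * q) := by
        have h5 := Real.add_one_le_exp (-(t ^ 2 * q))
        have h6 : Real.exp (-(t ^ 2 * q)) * Real.exp (t ^ 2 * q) = 1 := by
          rw [← Real.exp_add]; simp
        have h7 := mul_le_mul_of_nonneg_right h5 (Real.exp_pos (t ^ 2 * q)).le
        rw [h6] at h7
        linarith
      have h5 : t ^ 2 * Φ t ≤ t ^ 2 * (q * Real.exp (t ^ 2 * q) * Z) := by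
        rw [← h3]
        have h6 := mul_le_mul_of_nonneg_right h4 hZ
        linarith
      exact le_of_mul_le_mul_left h5 (by positivity)
    have hl1 : Tendsto Φ (𝓝[≠] 0) (𝓝 (Φ 0)) := (hΦc.tendsto 0).mono_left nhdsWithin_le_nhds
    have hl2 : Tendsto (fun t : ℝ => q * Real.exp (t ^ 2 * q) * Z) (𝓝[≠] 0)
        (𝓝 (q * Real.exp (0 ^ 2 * q) * Z)) := by
      have hc : Continuous fun t : ℝ => q * Real.exp (t ^ 2 * q) * Z := by fun_prop
      exact (hc.tendsto 0).mono_left nhdsWithin_le_nhds
    have h2 := le_of_tendsto_of_tendsto hl1 hl2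
      (by filter_upwards [self_mem_nhdsWithin] with t ht using h1 t ht)
    have e : q * Real.exp (0 ^ 2 * q) * Z = q * Z := by
      rw [zero_pow two_ne_zero, zero_mul, Real.exp_zero, mul_one]
    rwa [e] at h2
  have hPsi : ∀ u, PsiI I G C 0 u = ∫ v in (0:ℝ)..u, FF I G C v := by
    intro u
    unfold PsiI
    simp only [HH_zero I G C hIG]
    rw [intervalIntegral.integral_comp_sub_left (fun v => FF I G C v) u]
    simp
  have e2 : Φ 0 = ∫ u in (0:ℝ)..1, PsiI I G C 0 u := rfl
  rw [e2] at hup
  simp only [hPsi] at hup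
  exact hup

/-- the weight -/
noncomputable def WW (δ : ℝ) : ℝ := ∫ u in (0:ℝ)..1, ∫ v in (0:ℝ)..u, Real.exp (v * δ)

theorem in_cont (δ : ℝ) : Continuous fun u : ℝ => ∫ v in (0:ℝ)..u, Real.exp (v * δ) := by
  have hc : Continuous fun v : ℝ => Real.exp (v * δ) := by fun_prop
  exact intervalIntegral.continuous_primitive (fun a b => hc.intervalIntegrable a b) 0

theorem WW_ge_half {δ : ℝ} (hδ : 0 ≤ δ) : 1 / 2 ≤ WW δ := by
  have hc : Continuous fun v : ℝ => Real.exp (v * δ) := by fun_prop
  have h1 : ∀ u ∈ Set.Icc (0:ℝ) 1, u ≤ ∫ v in (0:ℝ)..u, Real.exp (v * δ) := by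
    intro u hu
    have h2 : ∫ _v in (0:ℝ)..u, (1:ℝ) ≤ ∫ v in (0:ℝ)..u, Real.exp (v * δ) := by
      refine intervalIntegral.integral_mono_on hu.1 (by simp) (hc.intervalIntegrable _ _) ?_
      intro v hv
      exact Real.one_le_exp (mul_nonneg hv.1 hδ)
    simpa using h2
  have h3 : ∫ u in (0:ℝ)..1, u ≤ WW δ := by
    unfold WW
    exact intervalIntegral.integral_mono_on zero_le_one (by simp)
      ((in_cont δ).intervalIntegrable _ _) h1
  rw [integral_id] at h3
  linarith

theorem WW_eq {δ : ℝ} (hδ : δ ≠ 0) : WW δ = (Real.exp δ - 1 - δ) / δ ^ 2 := by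
  have h1 : ∀ u : ℝ, ∫ v in (0:ℝ)..u, Real.exp (v * δ) = (Real.exp (u * δ) - 1) / δ := by
    intro u
    rw [intervalIntegral.integral_comp_mul_right (fun x => Real.exp x) hδ, integral_exp]
    rw [zero_mul, Real.exp_zero, smul_eq_mul, inv_mul_eq_div]
  unfold WW
  simp only [h1]
  have hc : Continuous fun v : ℝ => Real.exp (v * δ) := by fun_prop
  rw [intervalIntegral.integral_div, intervalIntegral.integral_sub (hc.intervalIntegrable _ _)
    (by simp), h1]
  simp only [intervalIntegral.integral_const, sub_zero, smul_eq_mul, mul_one, one_mul]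
  field_simp

theorem exp_aux {t : ℝ} (ht : 0 ≤ t) : 0 ≤ t - 2 + (t + 2) * Real.exp (-t) := by
  have hd : ∀ x : ℝ, HasDerivAt (fun t : ℝ => t - 2 + (t + 2) * Real.exp (-t))
      (1 - (x + 1) * Real.exp (-x)) x := by
    intro x
    have h1 : HasDerivAt (fun t : ℝ => Real.exp (-t)) (Real.exp (-x) * (-1)) x :=
      (hasDerivAt_neg x).exp
    have h2 : HasDerivAt (fun t : ℝ => t - 2) 1 x := (hasDerivAt_id x).sub_const 2
    have h3 : HasDerivAt (fun t : ℝ => t + 2) 1 x := (hasDerivAt_id x).add_const 2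
    have h4 := h2.add (h3.mul h1)
    refine h4.congr_deriv ?_
    ring
  have hm : MonotoneOn (fun t : ℝ => t - 2 + (t + 2) * Real.exp (-t)) (Set.Ici 0) := by
    refine monotoneOn_of_deriv_nonneg (convex_Ici 0)
      (fun x _ => (hd x).continuousAt.continuousWithinAt)
      (fun x _ => (hd x).differentiableAt.differentiableWithinAt) ?_
    intro x _
    rw [(hd x).deriv]
    have h5 := Real.add_one_le_exp x
    have h6 : Real.exp x * Real.exp (-x) = 1 := by rw [← Real.exp_add]; simp
    have h7 := mul_le_mul_of_nonneg_right h5 (Real.exp_pos (-x)).le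
    rw [h6] at h7
    linarith
  have h8 := hm (Set.mem_Ici.2 le_rfl) (Set.mem_Ici.2 ht) ht
  simp only [neg_zero, Real.exp_zero, zero_sub, zero_add, mul_one, neg_add_cancel] at h8
  exact h8

theorem om_pos (δ : ℝ) : 2 ≤ 2 - δ + Real.exp (δ - 1) := by
  have := Real.add_one_le_exp (δ - 1)
  linarith

theorem WW_pos (δ : ℝ) : 0 < WW δ ∧ 1 ≤ WW δ * (2 - δ + Real.exp (δ - 1)) := by
  have hω := om_pos δ
  rcases le_or_gt 0 δ with h | h
  · have h1 := WW_ge_half h
    refine ⟨by linarith, ?_⟩
    nlinarith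
  · rw [WW_eq h.ne]
    have h1 : δ + 1 < Real.exp δ := Real.add_one_lt_exp h.ne
    have h2 : 0 < δ ^ 2 := sq_pos_of_neg h
    refine ⟨div_pos (by linarith) h2, ?_⟩
    rw [div_mul_eq_mul_div, le_div_iff₀ h2, one_mul]
    have h3 := exp_aux (t := -δ) (by linarith)
    rw [neg_neg] at h3
    have h4 : 0 < Real.exp (δ - 1) := Real.exp_pos _
    nlinarith

/-- the weighted inequality between the geometric and the arithmetic mean -/
theorem amgm {X Y W ω : ℝ} (hW : 0 < W) (h : 1 ≤ W * ω) : 2 * (X * Y) ≤ W * X ^ 2 + ω * Y ^ 2 := by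
  have h1 : 0 ≤ W * (W * X ^ 2 + ω * Y ^ 2 - 2 * (X * Y)) := by
    have h2 : 0 ≤ (W * X - Y) ^ 2 := sq_nonneg _
    have h3 : 0 ≤ (W * ω - 1) * Y ^ 2 := mul_nonneg (by linarith) (sq_nonneg _)
    nlinarith
  have h4 := nonneg_of_mul_nonneg_right h1 hW
  linarith

theorem dbl_eq (I G C : Matrix n n ℝ) (g : n → ℝ) (X : Matrix n n ℝ)
    (h : ∀ v, FF I G C v = ∑ i, ∑ j, X j i ^ 2 * Real.exp (v * g j + (1 - v) * g i)) :
    ∫ u in (0:ℝ)..1, ∫ v in (0:ℝ)..u, FF I G C v =
      ∑ i, ∑ j, X j i ^ 2 * Real.exp (g i) * WW (g j - g i) := by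
  have h1 : ∀ v, FF I G C v =
      ∑ i, ∑ j, X j i ^ 2 * Real.exp (g i) * Real.exp (v * (g j - g i)) := by
    intro v
    rw [h]
    refine Finset.sum_congr rfl fun i _ => Finset.sum_congr rfl fun j _ => ?_
    rw [mul_assoc, ← Real.exp_add]
    congr 2
    ring
  have hc : ∀ (c δ : ℝ), Continuous fun v : ℝ => c * Real.exp (v * δ) := by
    intro c δ
    fun_prop
  have h2 : ∀ u : ℝ, ∫ v in (0:ℝ)..u, FF I G C v =
      ∑ i, ∑ j, X j i ^ 2 * Real.exp (g i) * ∫ v in (0:ℝ)..u, Real.exp (v * (g j - g i)) := by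
    intro u
    simp only [h1]
    rw [intervalIntegral.integral_finsetSum]
    · refine Finset.sum_congr rfl fun i _ => ?_
      rw [intervalIntegral.integral_finsetSum]
      · refine Finset.sum_congr rfl fun j _ => ?_
        rw [intervalIntegral.integral_const_mul]
      · intro j _
        exact (hc _ _).intervalIntegrable _ _
    · intro i _
      exact (continuous_finsetSum _ fun j _ => hc _ _).intervalIntegrable _ _
  simp only [h2]
  have hc2 : ∀ (c δ : ℝ), Continuous fun u : ℝ => c * ∫ v in (0:ℝ)..u, Real.exp (v * δ) :=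
    fun c δ => continuous_const.mul (in_cont δ)
  rw [intervalIntegral.integral_finsetSum]
  · refine Finset.sum_congr rfl fun i _ => ?_
    rw [intervalIntegral.integral_finsetSum]
    · refine Finset.sum_congr rfl fun j _ => ?_
      rw [intervalIntegral.integral_const_mul]
      rfl
    · intro j _
      exact (hc2 _ _).intervalIntegrable _ _
  · intro i _
    exact (continuous_finsetSum _ fun j _ => hc2 _ _).intervalIntegrable _ _

omit [DecidableEq n] in
/-- the bracket -/
theorem bracket (g : n → ℝ) (Y : Matrix n n ℝ) :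
    2 * (∑ i, ∑ j, Y j i * Y j i * Real.exp (g i)) +
      (∑ i, ∑ j, Y j i ^ 2 * ((g i - g j) * Real.exp (g i))) +
      Real.exp (-1) * (∑ i, ∑ j, Y j i ^ 2 * Real.exp (g j)) =
    ∑ i, ∑ j, Real.exp (g i) * ((2 - (g j - g i) + Real.exp (g j - g i - 1)) * Y j i ^ 2) := by
  rw [Finset.mul_sum, Finset.mul_sum, ← Finset.sum_add_distrib, ← Finset.sum_add_distrib]
  refine Finset.sum_congr rfl fun i _ => ?_
  rw [Finset.mul_sum, Finset.mul_sum, ← Finset.sum_add_distrib, ← Finset.sum_add_distrib]
  refine Finset.sum_congr rfl fun j _ => ?_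
  have e1 : Real.exp (g i) * Real.exp (g j - g i - 1) = Real.exp (-1) * Real.exp (g j) := by
    rw [← Real.exp_add, ← Real.exp_add]
    congr 1
    ring
  linear_combination (-(Y j i ^ 2)) * e1

theorem task_cross (I G C B : Matrix n n ℝ) (hG : Gᵀ = G) (hC : Cᵀ = C) (hB : Bᵀ = B) (hI : Iᵀ = I)
    (hII : I * I = I) (hIG : I * G = G * I) (hodd : (I * exp G * C).trace = 0)
    (hZ : 0 ≤ (I * exp G).trace) (q : ℝ)
    (h : ∀ s : ℝ, (I * exp (G + s • C)).trace ≤ Real.exp (s ^ 2 * q) * (I * exp G).trace) :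
    2 * (I * (C * B) * exp G).trace ≤ q * (I * exp G).trace +
      (2 * (I * (B * B) * exp G).trace + (I * (B * (B * G - G * B)) * exp G).trace +
        Real.exp (-1) * (I * (B * exp G * B)).trace) := by
  obtain ⟨g, X, hX⟩ := sp2 I G hG hI hII hIG
  obtain ⟨h1, h2, h3, h4⟩ := hX C B hC hB
  have h5 := (hX B B hB hB).2.1
  have h6 := dbl_le I G C hIG hodd hZ q h
  rw [dbl_eq I G C g (X C) h1] at h6
  rw [h2, h3, h4, h5, bracket g (X B)]
  refine le_trans ?_ (add_le_add_left h6 _)
  rw [Finset.mul_sum, ← Finset.sum_add_distrib]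
  refine Finset.sum_le_sum fun i _ => ?_
  rw [Finset.mul_sum, ← Finset.sum_add_distrib]
  refine Finset.sum_le_sum fun j _ => ?_
  obtain ⟨hW, hWω⟩ := WW_pos (g j - g i)
  have h7 := mul_le_mul_of_nonneg_left (amgm (X := X C j i) (Y := X B j i) hW hWω)
    (Real.exp_pos (g i)).le
  linarith

theorem task_cross_nonneg (I G B : Matrix n n ℝ) (hG : Gᵀ = G) (hB : Bᵀ = B) (hI : Iᵀ = I)
    (hII : I * I = I) (hIG : I * G = G * I) :
    0 ≤ 2 * (I * (B * B) * exp G).trace + (I * (B * (B * G - G * B)) * exp G).trace +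
        Real.exp (-1) * (I * (B * exp G * B)).trace := by
  obtain ⟨g, X, hX⟩ := sp2 I G hG hI hII hIG
  obtain ⟨-, h2, h3, h4⟩ := hX B B hB hB
  rw [h2, h3, h4, bracket g (X B)]
  refine Finset.sum_nonneg fun i _ => Finset.sum_nonneg fun j _ => ?_
  have := om_pos (g j - g i)
  exact mul_nonneg (Real.exp_pos _).le (mul_nonneg (by linarith) (sq_nonneg _))

end Pool.Agent.H297.HF
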